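import Mathlib
import Pool.Agent.H28.SH.Concrete

/-!
The space `C[0,1]` has the SHAI property, over the real and over the complex scalars.
-/

namespace Pool.Agent.Results.MP_7b3514_an.ShaiUnitInterval

/-- Every surjective algebra homomorphism from `B(C[0,1])` onto `B(Y)`, for a non-zero Banach
space `Y`, is injective. The scalar field `𝕜` is `ℝ` or `ℂ`. -/
theorem result {𝕜 : Type*} [RCLike 𝕜] {Y : Type*} [NormedAddCommGroup Y] [NormedSpace 𝕜 Y]
    [CompleteSpace Y] [Nontrivial Y]
    (Φ : (C(unitInterval, 𝕜) →L[𝕜] C(unitInterval, 𝕜)) →ₙₐ[𝕜] (Y →L[𝕜] Y))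
    (hΦ : Function.Surjective Φ) : Function.Injective Φ :=
  Pool.Agent.H28.SH.shai_unitInterval Φ hΦ

end Pool.Agent.Results.MP_7b3514_an.ShaiUnitInterval
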